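import Mathlib
import Pool.Agent.P.MP_cd2194_co.Count

namespace Pool.Agent.Results.MP_cd2194_co.Counterexample

open Pool.Agent.P.MP_cd2194_co Finset

/-- For `H = C₇` and all `c`, `q` there is a finite graph `G` excluding `H` as an induced minor
such that no connected partition with `(q, 1)`-coverable clusters has a quotient with at most
`c n` edges. -/
theorem result : ∀ c q : ℕ, ∃ (V : Type) (_ : Fintype V) (_ : DecidableEq V) (G : SimpleGraph V),
    ¬ IsInducedMinor (SimpleGraph.cycleGraph 7) G ∧
    ¬ ∃ P : Finpartition (Finset.univ : Finset V),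
      (∀ X ∈ P.parts, (G.induce (X : Set V)).Connected) ∧
      (∀ X ∈ P.parts, Coverable G q 1 X) ∧
      (quotientGraph G P).edgeSet.ncard ≤ c * Fintype.card V := by
  classical
  intro c q
  obtain ⟨M, K, h⟩ := not_sparse c q
  refine ⟨Vx M K, inferInstance, inferInstance, cross M K, cross_free, ?_⟩
  rintro ⟨P, hconn, hcov, hE⟩
  have hcov' : ∀ X : P.parts, Coverable (cross M K) q 1 X.1 := fun X => hcov X.1 X.2
  choose D hD hdom using hcov'
  let cl : Vx M K → P.parts := fun v => ⟨P.part v, P.part_mem.2 (mem_univ v)⟩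
  have hcl : ∀ v, v ∈ (cl v).1 := fun v => P.mem_part (mem_univ v)
  have hcl' : ∀ v (X : P.parts), v ∈ X.1 → cl v = X := fun v X hv =>
    Subtype.ext (P.part_eq_of_mem X.2 hv)
  choose dom hdom1 hdom2 using fun v => hdom (cl v) v (hcl v)
  refine h (C := P.parts)
    { cl := cl, D := D, dom := dom
      E := univ.filter fun x => (quotientGraph (cross M K) P).Adj x.1 x.2
      hD := hD, dom_mem := hdom1
      dom_adj := fun v => ?_
      conn := fun v hv w hw => ?_
      hE := fun v w hvw hne => mem_filter.2 ⟨mem_univ _, hne, v, hcl v, w, hcl w, hvw⟩ } ?_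
  · have := SimpleGraph.edist_le_one_iff_adj_or_eq.1 (hdom2 v)
    tauto
  · obtain ⟨p⟩ := (hconn _ (cl v).2).preconnected ⟨v, hcl v⟩ ⟨w, hw ▸ hcl w⟩
    cases p with
    | nil => rfl
    | @cons _ b _ hb _ => exact absurd (hcl' _ _ b.2) (hv _ hb)
  · have := (quotientGraph (cross M K) P).two_mul_card_edgeFinset
    rw [← Set.ncard_coe_finset, SimpleGraph.coe_edgeFinset] at this
    exact this.symm.le.trans (Nat.mul_le_mul_left 2 hE)

end Pool.Agent.Results.MP_cd2194_co.Counterexample
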